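import Mathlib

/-!
# A basically disconnected space with a cocompact pretty base that is not locally compact

The space is `X = Y ∪ {p}` inside the space of ultrafilters on an uncountable set `κ`
(here `κ = ℝ`), where `Y` is the set of all ultrafilters which contain a countable set and `p` is
one ultrafilter which contains no countable set.  The pretty base consists of all clopen subsets
of `X` which contain `p` together with all clopen subsets of `X` which are concentrated on a
countable subset of `κ` (these are the compact clopen sets which miss `p`).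
-/

set_option autoImplicit false

open Set Filter TopologicalSpace Topology

namespace Pool.Agent.Results.MP_9e6edb_gt.NotLocallyCompact

/-- `coz f = f⁻¹(1)` for a continuous function `f : X → {0,1}`.  The two-point discrete space is
`Bool`, with `false = 0` and `true = 1`. -/
def coz {X : Type} [TopologicalSpace X] (f : C(X, Bool)) : Set X := {x | f x = true}

/-- The family `{coz f : f ∈ H}`. -/
def cozFamily {X : Type} [TopologicalSpace X] (H : Set C(X, Bool)) : Set (Set X) :=
  {B | ∃ f ∈ H, B = coz f}

/-- The family `H` of continuous functions `X → {0,1}` gives a pretty base of `X`: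
the sets `coz f`, `f ∈ H`, form a base of the topology, and `H` has the nesting property
(`!b` is `1 - b`). -/
structure GivesPrettyBase {X : Type} [TopologicalSpace X] (H : Set C(X, Bool)) : Prop where
  /-- `{coz f : f ∈ H}` is a base for the topology of `X`. -/
  isBase : IsTopologicalBasis (cozFamily H)
  /-- Nesting: `C` is countable, `D` has any cardinality, `c ≤ 1 - d` for all `c ∈ C`, `d ∈ D`;
  then there is `f ∈ H` with `c ≤ f ≤ 1 - d` for all `c ∈ C`, `d ∈ D`. -/
  nesting : ∀ C D : Set C(X, Bool), C ⊆ H → D ⊆ H → C.Countable →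
    (∀ c ∈ C, ∀ d ∈ D, ∀ x, c x ≤ !(d x)) →
    ∃ f ∈ H, (∀ c ∈ C, ∀ x, c x ≤ f x) ∧ (∀ d ∈ D, ∀ x, f x ≤ !(d x))

/-- The cotopology `τ*(B)`: the topology generated by the complements of the closures of the
members of `B`. -/
abbrev cotopology {X : Type} [TopologicalSpace X] (B : Set (Set X)) : TopologicalSpace X :=
  generateFrom {U | ∃ V ∈ B, U = (closure V)ᶜ}

/-- The base `B` is cocompact: every cover of `X` by `τ*(B)`-open sets has a finite subcover. -/
def IsCocompactBase {X : Type} [TopologicalSpace X] (B : Set (Set X)) : Prop :=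
  ∀ 𝒰 : Set (Set X), (∀ U ∈ 𝒰, IsOpen[cotopology B] U) → ⋃₀ 𝒰 = univ →
    ∃ 𝒱 ⊆ 𝒰, 𝒱.Finite ∧ ⋃₀ 𝒱 = univ

/-- Basically disconnected: a zero-dimensional (the clopen sets form a base) Hausdorff space in
which the closure of the union of countably many clopen sets is clopen. -/
structure BasicallyDisconnected (X : Type) [TopologicalSpace X] : Prop where
  /-- `X` is Hausdorff. -/
  hausdorff : T2Space X
  /-- `X` is zero-dimensional. -/
  zeroDimensional : IsTopologicalBasis {U : Set X | IsClopen U}
  /-- The closure of a countable union of clopen sets is clopen. -/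
  closure_iUnion : ∀ U : ℕ → Set X, (∀ n, IsClopen (U n)) → IsClopen (closure (⋃ n, U n))

/-! ### The construction -/

/-- There is an ultrafilter on `ℝ` which contains no countable set and a prescribed uncountable
set. -/
theorem exists_ultrafilter (s : Set ℝ) (hs : ¬ s.Countable) :
    ∃ q : Ultrafilter ℝ, s ∈ q ∧ ∀ t ∈ q, ¬ t.Countable := by
  have hne : (Filter.cocountable ⊓ 𝓟 s : Filter ℝ).NeBot := by
    rw [Filter.inf_principal_neBot_iff]
    intro U hU
    rw [Filter.mem_cocountable] at hU
    by_contra hcon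
    rw [Set.not_nonempty_iff_eq_empty] at hcon
    apply hs
    refine hU.mono ?_
    intro x hx hxU
    have : x ∈ U ∩ s := ⟨hxU, hx⟩
    rw [hcon] at this
    exact this
  refine ⟨Ultrafilter.of (Filter.cocountable ⊓ 𝓟 s), ?_, ?_⟩
  · exact (Ultrafilter.of_le _) (mem_inf_of_right (mem_principal_self s))
  · intro t ht htc
    have h1 : tᶜ ∈ (Filter.cocountable : Filter ℝ) := by
      rw [Filter.mem_cocountable, compl_compl]
      exact htc
    have h2 : tᶜ ∈ Ultrafilter.of (Filter.cocountable ⊓ 𝓟 s) :=
      (Ultrafilter.of_le _) (mem_inf_of_left h1)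
    exact (Ultrafilter.compl_mem_iff_notMem.1 h2) ht

/-- An uncountable set splits into two uncountable sets. -/
theorem exists_split (s : Set ℝ) (hs : ¬ s.Countable) :
    ∃ t ⊆ s, ¬ t.Countable ∧ ¬ (s \ t).Countable := by
  have hinf : Infinite s := by
    rw [← not_finite_iff_infinite]
    intro hf
    exact hs (Set.toFinite s).countable
  have hcard : Cardinal.mk s + Cardinal.mk s = Cardinal.mk s :=
    Cardinal.add_eq_self (Cardinal.aleph0_le_mk s)
  have he : Nonempty (s ⊕ s ≃ s) := by
    rw [← Cardinal.eq, ← Cardinal.add_def]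
    exact hcard
  obtain ⟨e⟩ := he
  have huncount : Uncountable s := by
    rw [← not_countable_iff]
    exact fun h => hs h.to_set
  have key : ∀ f : s → s, Function.Injective f → ¬ (Subtype.val '' (Set.range f)).Countable := by
    intro f hf hc
    rw [← Set.range_comp] at hc
    have hinj : Function.Injective (Subtype.val ∘ f) := Subtype.val_injective.comp hf
    have : Countable s := by
      have h1 : Countable (Set.range (Subtype.val ∘ f)) := hc.to_subtype
      exact (Equiv.ofInjective _ hinj).countable_iff.2 h1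
    exact not_countable this
  refine ⟨Subtype.val '' (Set.range (fun x => e (Sum.inl x))), ?_, ?_, ?_⟩
  · rintro _ ⟨y, _, rfl⟩
    exact y.2
  · exact key _ (e.injective.comp Sum.inl_injective)
  · intro hc
    refine key (fun x => e (Sum.inr x)) (e.injective.comp Sum.inr_injective) (hc.mono ?_)
    rintro _ ⟨_, ⟨x, rfl⟩, rfl⟩
    refine ⟨Subtype.coe_prop _, ?_⟩
    rintro ⟨_, ⟨y, rfl⟩, hy⟩
    have h2 := Subtype.val_injective hy
    have h3 := e.injective h2
    cases h3

/-- The underlying set of the example: all ultrafilters on `ℝ` which contain a countable set,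
and one more ultrafilter `p`. -/
def Carrier (p : Ultrafilter ℝ) : Set (Ultrafilter ℝ) := {u | u = p ∨ ∃ s ∈ u, s.Countable}

/-- The basic clopen set given by `s`. -/
def basic (p : Ultrafilter ℝ) (s : Set ℝ) : Set (Carrier p) := {u | s ∈ u.1}

theorem isClopen_basic (p : Ultrafilter ℝ) (s : Set ℝ) : IsClopen (basic p s) :=
  ⟨(ultrafilter_isClosed_basic s).preimage continuous_subtype_val,
    (ultrafilter_isOpen_basic s).preimage continuous_subtype_val⟩

theorem exists_basic (p : Ultrafilter ℝ) {U : Set (Carrier p)} (hU : IsOpen U) {x : Carrier p}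
    (hx : x ∈ U) : ∃ s ∈ x.1, basic p s ⊆ U := by
  obtain ⟨V, hV, rfl⟩ := isOpen_induced_iff.1 hU
  obtain ⟨_, ⟨s, rfl⟩, hs, hsV⟩ :=
    ultrafilterBasis_is_basis.exists_subset_of_mem_open (show x.1 ∈ V from hx) hV
  exact ⟨s, hs, fun u hu => hsV hu⟩

/-- The principal ultrafilter at `a` as a point of the example. -/
def pt (p : Ultrafilter ℝ) (a : ℝ) : Carrier p :=
  ⟨pure a, Or.inr ⟨{a}, by simp, Set.countable_singleton a⟩⟩

theorem pt_mem_basic (p : Ultrafilter ℝ) (a : ℝ) (s : Set ℝ) : pt p a ∈ basic p s ↔ a ∈ s := by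
  simp [pt, basic]

/-- The closure of an open set is a basic clopen set. -/
theorem closure_eq (p : Ultrafilter ℝ) {U : Set (Carrier p)} (hU : IsOpen U) :
    closure U = basic p {a | pt p a ∈ U} := by
  apply Set.Subset.antisymm
  · apply closure_minimal _ (isClopen_basic p _).1
    intro v hv
    by_contra hcon
    obtain ⟨s, hs, hsU⟩ := exists_basic p hU hv
    have h1 : {a | pt p a ∈ U}ᶜ ∈ v.1 := Ultrafilter.compl_mem_iff_notMem.2 hcon
    obtain ⟨a, ha, ha'⟩ := v.1.nonempty_of_mem (Filter.inter_mem hs h1)
    exact ha' (hsU ((pt_mem_basic p a s).2 ha))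
  · intro v hv
    rw [mem_closure_iff]
    intro O hO hvO
    obtain ⟨s, hs, hsO⟩ := exists_basic p hO hvO
    obtain ⟨a, ha, ha'⟩ := v.1.nonempty_of_mem (Filter.inter_mem hs hv)
    exact ⟨pt p a, hsO ((pt_mem_basic p a s).2 ha), ha'⟩

theorem isClopen_closure (p : Ultrafilter ℝ) {U : Set (Carrier p)} (hU : IsOpen U) :
    IsClopen (closure U) := by
  rw [closure_eq p hU]
  exact isClopen_basic p _

/-- A basic set given by a countable set is compact. -/
theorem isCompact_basic (p : Ultrafilter ℝ) {s : Set ℝ} (hs : s.Countable) :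
    IsCompact (basic p s) := by
  rw [Subtype.isCompact_iff]
  have : (Subtype.val '' basic p s) = {u : Ultrafilter ℝ | s ∈ u} := by
    ext u
    constructor
    · rintro ⟨v, hv, rfl⟩
      exact hv
    · intro hu
      exact ⟨⟨u, Or.inr ⟨s, hu, hs⟩⟩, hu, rfl⟩
  rw [this]
  exact (ultrafilter_isClosed_basic s).isCompact

/-- The family `H` of the example. -/
def family (p : Ultrafilter ℝ) : Set C(Carrier p, Bool) :=
  {f | f ⟨p, Or.inl rfl⟩ = true ∨ ∃ s : Set ℝ, s.Countable ∧ coz f ⊆ basic p s}

open Classical in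
/-- The continuous two-valued function given by a clopen set. -/
noncomputable def ofClopen {X : Type} [TopologicalSpace X] (U : Set X) (hU : IsClopen U) :
    C(X, Bool) :=
  ⟨fun x => decide (x ∈ U), by
    rw [continuous_discrete_rng]
    intro b
    cases b
    · have : (fun x => decide (x ∈ U)) ⁻¹' {false} = Uᶜ := by
        ext x; simp
      rw [this]
      exact hU.compl.2
    · have : (fun x => decide (x ∈ U)) ⁻¹' {true} = U := by
        ext x; simp
      rw [this]
      exact hU.2⟩

theorem coz_ofClopen {X : Type} [TopologicalSpace X] (U : Set X) (hU : IsClopen U) :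
    coz (ofClopen U hU) = U := by
  ext x
  simp [coz, ofClopen]

theorem isClopen_coz {X : Type} [TopologicalSpace X] (f : C(X, Bool)) : IsClopen (coz f) := by
  have : coz f = f ⁻¹' {true} := by
    ext x; simp [coz]
  rw [this]
  exact (isClopen_discrete _).preimage f.continuous

theorem givesPrettyBase (p : Ultrafilter ℝ) : GivesPrettyBase (family p) := by
  refine ⟨?_, ?_⟩
  · apply isTopologicalBasis_of_isOpen_of_nhds
    · rintro _ ⟨f, _, rfl⟩
      exact (isClopen_coz f).2
    · intro x U hx hU
      obtain ⟨s, hs, hsU⟩ := exists_basic p hU hx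
      rcases x.2 with hxp | ⟨t, ht, htc⟩
      · refine ⟨basic p s, ⟨ofClopen _ (isClopen_basic p s), Or.inl ?_, (coz_ofClopen _ _).symm⟩,
          hs, hsU⟩
        have h1 : (⟨p, Or.inl rfl⟩ : Carrier p) ∈ basic p s := by
          have h2 : s ∈ x.1 := hs
          rw [hxp] at h2
          exact h2
        have h3 : (⟨p, Or.inl rfl⟩ : Carrier p) ∈ coz (ofClopen _ (isClopen_basic p s)) := by
          rw [coz_ofClopen]; exact h1
        exact h3
      · refine ⟨basic p (s ∩ t), ⟨ofClopen _ (isClopen_basic p (s ∩ t)), Or.inr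
          ⟨s ∩ t, htc.mono Set.inter_subset_right, (coz_ofClopen _ _).subset⟩,
          (coz_ofClopen _ _).symm⟩, Filter.inter_mem hs ht, ?_⟩
        intro u hu
        exact hsU (Filter.mem_of_superset hu Set.inter_subset_left)
  · intro C D hC hD hCc hCD
    have hopen : IsOpen (⋃ c ∈ C, coz c) := isOpen_biUnion fun c _ => (isClopen_coz c).2
    have hclop := isClopen_closure p hopen
    refine ⟨ofClopen _ hclop, ?_, ?_, ?_⟩
    · by_cases hp : ∃ c ∈ C, c ⟨p, Or.inl rfl⟩ = true
      · left
        obtain ⟨c, hc, hcp⟩ := hp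
        have h1 : (⟨p, Or.inl rfl⟩ : Carrier p) ∈ closure (⋃ c ∈ C, coz c) :=
          subset_closure (Set.mem_biUnion hc hcp)
        have h3 : (⟨p, Or.inl rfl⟩ : Carrier p) ∈ coz (ofClopen _ hclop) := by
          rw [coz_ofClopen]; exact h1
        exact h3
      · right
        push Not at hp
        have h1 : ∀ c ∈ C, ∃ s : Set ℝ, s.Countable ∧ coz c ⊆ basic p s := by
          intro c hc
          rcases hC hc with h | h
          · exact absurd h (by simpa using hp c hc)
          · exact h
        choose! s hs using h1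
        refine ⟨⋃ c ∈ C, s c, hCc.biUnion fun c hc => (hs c hc).1, ?_⟩
        rw [coz_ofClopen]
        apply closure_minimal _ (isClopen_basic p _).1
        intro u hu
        obtain ⟨c, hc, huc⟩ := Set.mem_iUnion₂.1 hu
        exact Filter.mem_of_superset ((hs c hc).2 huc) (Set.subset_biUnion_of_mem (u := s) hc)
    · intro c hc x
      cases hcx : c x
      · exact Bool.false_le _
      · have h1 : x ∈ coz (ofClopen _ hclop) := by
          rw [coz_ofClopen]
          exact subset_closure (Set.mem_biUnion hc hcx)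
        have h2 : ofClopen _ hclop x = true := h1
        rw [h2]
    · intro d hd x
      cases hfx : ofClopen _ hclop x
      · exact Bool.false_le _
      · have h1 : x ∈ coz (ofClopen _ hclop) := hfx
        rw [coz_ofClopen] at h1
        have h2 : Disjoint (coz d) (⋃ c ∈ C, coz c) := by
          rw [Set.disjoint_left]
          intro y hyd hyc
          obtain ⟨c, hc, hyc⟩ := Set.mem_iUnion₂.1 hyc
          have h3 := hCD c hc d hd y
          have h4 : c y = true := hyc
          have h5 : d y = true := hyd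
          rw [h4, h5] at h3
          exact absurd h3 (by decide)
        have h3 : Disjoint (coz d) (closure (⋃ c ∈ C, coz c)) :=
          h2.closure_right (isClopen_coz d).2
        cases hdx : d x
        · exact le_rfl
        · exact absurd h1 (Set.disjoint_left.1 h3 hdx)

/-- A compact set covered by a family of open sets is covered by a finite subfamily. -/
theorem finite_subfamily {X : Type} [TopologicalSpace X] {K : Set X} (hK : IsCompact K)
    {P : Set (Set X)} (hP : ∀ U ∈ P, IsOpen U) (hKP : K ⊆ ⋃₀ P) :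
    ∃ Q ⊆ P, Q.Finite ∧ K ⊆ ⋃₀ Q := by
  obtain ⟨Q, hQP, hQf, hQc⟩ := hK.elim_finite_subcover_image (b := P) (c := fun U => U)
    (fun U hU => hP U hU) (by rw [← Set.sUnion_eq_biUnion]; exact hKP)
  refine ⟨Q, hQP, hQf, ?_⟩
  rw [Set.sUnion_eq_biUnion]
  exact hQc

theorem subbasic_cover (p : Ultrafilter ℝ) (P : Set (Set (Carrier p)))
    (hP : P ⊆ {U | ∃ V ∈ cozFamily (family p), U = (closure V)ᶜ}) (hPU : ⋃₀ P = univ) :
    ∃ Q ⊆ P, Q.Finite ∧ ⋃₀ Q = univ := by
  have hp : (⟨p, Or.inl rfl⟩ : Carrier p) ∈ ⋃₀ P := by rw [hPU]; trivial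
  obtain ⟨W, hW, hpW⟩ := hp
  obtain ⟨V, ⟨f, hf, rfl⟩, hWV⟩ := hP hW
  rw [(isClopen_coz f).1.closure_eq] at hWV
  have hfp : ¬ f ⟨p, Or.inl rfl⟩ = true := by
    rw [hWV] at hpW
    exact hpW
  rcases hf with hf | ⟨s, hs, hfs⟩
  · exact absurd hf hfp
  have hcpt : IsCompact (coz f) :=
    (isCompact_basic p hs).of_isClosed_subset (isClopen_coz f).1 hfs
  obtain ⟨Q, hQP, hQf, hQc⟩ := finite_subfamily hcpt (P := P) (by
    intro U hU
    obtain ⟨V, _, rfl⟩ := hP hU
    exact isClosed_closure.isOpen_compl) (by rw [hPU]; exact Set.subset_univ _)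
  refine ⟨insert W Q, Set.insert_subset hW hQP, hQf.insert W, ?_⟩
  rw [Set.sUnion_insert, hWV]
  apply Set.eq_univ_of_forall
  intro x
  by_cases hx : x ∈ coz f
  · exact Or.inr (hQc hx)
  · exact Or.inl hx

theorem isCocompactBase (p : Ultrafilter ℝ) : IsCocompactBase (cozFamily (family p)) := by
  have hcomp : @CompactSpace (Carrier p) (cotopology (cozFamily (family p))) :=
    @compactSpace_generateFrom _ (cotopology (cozFamily (family p))) _ rfl (subbasic_cover p)
  intro 𝒰 h𝒰 hcov
  obtain ⟨𝒱, h1, h2, h3⟩ := @finite_subfamily _ (cotopology (cozFamily (family p))) _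
    hcomp.isCompact_univ 𝒰 h𝒰 (by rw [hcov])
  exact ⟨𝒱, h1, h2, Set.eq_univ_of_univ_subset h3⟩

theorem basicallyDisconnected (p : Ultrafilter ℝ) : BasicallyDisconnected (Carrier p) := by
  refine ⟨inferInstance, ?_, ?_⟩
  · apply isTopologicalBasis_of_isOpen_of_nhds
    · intro U hU
      exact hU.2
    · intro x U hx hU
      obtain ⟨s, hs, hsU⟩ := exists_basic p hU hx
      exact ⟨basic p s, isClopen_basic p s, hs, hsU⟩
  · intro U hU
    exact isClopen_closure p (isOpen_iUnion fun n => (hU n).2)

theorem not_compact_nhds (p : Ultrafilter ℝ) (hp : ∀ s ∈ p, ¬ s.Countable)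
    (K : Set (Carrier p)) (hK : K ∈ 𝓝 (⟨p, Or.inl rfl⟩ : Carrier p)) : ¬ IsCompact K := by
  intro hcpt
  obtain ⟨U, hUK, hU, hpU⟩ := mem_nhds_iff.1 hK
  obtain ⟨s, hs, hsU⟩ := exists_basic p hU hpU
  obtain ⟨t, hts, htc, htc'⟩ := exists_split s (hp s hs)
  -- one of the two halves is not in `p`
  have h1 : ∃ r ⊆ s, ¬ r.Countable ∧ r ∉ p := by
    by_cases htp : t ∈ p
    · refine ⟨s \ t, Set.sdiff_subset, htc', fun h => ?_⟩
      obtain ⟨a, ha, ha'⟩ := p.nonempty_of_mem (Filter.inter_mem htp h)
      exact ha'.2 ha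
    · exact ⟨t, hts, htc, htp⟩
  obtain ⟨r, hrs, hrc, hrp⟩ := h1
  obtain ⟨q, hrq, hq⟩ := exists_ultrafilter r hrc
  have hqp : q ≠ p := by
    rintro rfl
    exact hrp hrq
  have hqX : q ∉ Carrier p := by
    rintro (h | ⟨a, ha, hac⟩)
    · exact hqp h
    · exact hq a ha hac
  have hbc : IsCompact (basic p s) :=
    hcpt.of_isClosed_subset (isClopen_basic p s).1 (hsU.trans hUK)
  have himg : IsClosed (Subtype.val '' basic p s) :=
    (Subtype.isCompact_iff.1 hbc).isClosed
  have hmem : q ∈ closure (Subtype.val '' basic p s) := by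
    rw [ultrafilterBasis_is_basis.mem_closure_iff]
    rintro _ ⟨a, rfl⟩ ha
    obtain ⟨b, hb, hb'⟩ := q.nonempty_of_mem
      (Filter.inter_mem ha (Filter.mem_of_superset hrq hrs))
    refine ⟨pure b, hb, pt p b, (pt_mem_basic p b s).2 hb', rfl⟩
  rw [himg.closure_eq] at hmem
  obtain ⟨v, _, hv⟩ := hmem
  exact hqX (hv ▸ v.2)

/-- There is a basically disconnected space (it is even extremally disconnected: closures of open
sets are open) with a cocompact pretty base in which some point has no compact neighbourhood. -/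
theorem result :
    ∃ (X : Type) (_ : TopologicalSpace X),
      BasicallyDisconnected X ∧
      (∀ U : Set X, IsOpen U → IsOpen (closure U)) ∧
      (∃ H : Set C(X, Bool), GivesPrettyBase H ∧ IsCocompactBase (cozFamily H)) ∧
      ∃ x : X, ∀ K ∈ 𝓝 x, ¬ IsCompact K := by
  obtain ⟨p, _, hp⟩ := exists_ultrafilter Set.univ Set.not_countable_univ
  exact ⟨Carrier p, inferInstance, basicallyDisconnected p,
    fun U hU => (isClopen_closure p hU).2,
    ⟨family p, givesPrettyBase p, isCocompactBase p⟩, ⟨p, Or.inl rfl⟩, not_compact_nhds p hp⟩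

end Pool.Agent.Results.MP_9e6edb_gt.NotLocallyCompact
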